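import Pool.Agent.Y132.SI.Davis

/-!
# Vanishing above the middle for right-angled Coxeter groups with finite or infinite nerves

`G` is a graph on a finite or infinite vertex set `V`; `W G` is the right-angled Coxeter group with the generators
`V`; its nerve is the flag complex of `G`.  If the flag complex is (a full subcomplex of) a triangulation of an
`(n-1)`-manifold which is the boundary of a contractible (compact or noncompact) `n`-manifold `Q`, for instance of an
open subset of the `(n-1)`-sphere, then `W G` acts properly on a contractible `n`-manifold tiled by copies of `Q`,
and its torsion-free subgroups of finite index are fundamental groups of (in general noncompact) aspherical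
`n`-manifolds.  The Davis complex of `W G` is the union of the subcomplexes of the cubes `w W_T` with `T ⊆ A`, `A`
a finite set of vertices.

The class `AQI n` of graphs on finite or infinite vertex sets
* contains the comparability graphs of finite graded posets of length `n` which are Gorenstein* over `F_2` (for
  example the barycentric subdivisions of all the triangulated `(n-1)`-spheres),
* contains each (finite or infinite) graph all of whose finite full subgraphs it contains,
* is closed under full subgraphs, edge subdivisions of members of its subclass `AMI n`, joins (the numbers `n` add
  up), adding a vertex or deleting an edge with link in the class `n - 2`, gluing along full subgraphs of the class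
  `n - 2`, and `n ↦ n + 1`, `2 m + 1 ↦ 2 m`,
* contains, for `n = 2 m + 2`, each (finite or infinite) graph for which the vertices whose links are not in the
  class `2 m + 1` span a subcomplex of dimension at most `m`.
-/

set_option autoImplicit false

namespace Pool.Agent.Results.MP_4f4d9f_gt.InfiniteNerves

open Pool.Agent.W907.SG Pool.Agent.Y132.SI

/-- Let `G` be a finite or infinite graph in the class `AQI n` and `A` a finite set of vertices. The subcomplex of
the Davis complex of `W G` of the cubes `w W_T`, `T ⊆ A`, carries no nonzero `ℓ²` harmonic `i`-chain in the degrees
`i > n / 2`. -/
theorem result : ∀ (n : ℕ) (V : Type) (G : SimpleGraph V), AQI n G →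
    ∀ (A : Set V) [Fintype ↥A] [LinearOrder ↥A] (i : ℕ), n < 2 * i →
      ∀ c : W G → Finset ↥A → ℝ, HarmOn G A i c → c = 0 := by
  intro n V G h A _ _ i hi c hc
  exact harm_zero G A i (above_AQI h A (Set.toFinite A) i hi _ _) c hc

end Pool.Agent.Results.MP_4f4d9f_gt.InfiniteNerves
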