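import Pool.Agent.Y343.LC.Main

/-!
The two top `L²`-Betti numbers of an arbitrary (open or closed) aspherical `n`-manifold.

Let `M` be a connected aspherical `n`-manifold without boundary, `n ≥ 2`, with infinite fundamental
group `H`.  `K` is the `2`-skeleton of the universal covering of a locally finite simplicial complex
which is properly homotopy equivalent to `M` (a triangulation of `M`, if there is one); `H` acts on
its set `V` of vertices.

All definitions are in the file `Pool.Agent.Y343.LC.Stm`: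

* `L2 H`, `L2Rep H`: `ℓ²(H)` with the left regular representation; `HH H k = H_k(H; ℓ²H)` and
  `HC H k = H^k(H; ℓ²H)` are group homology and cohomology;
* `VN H`: the von Neumann algebra of `H`; `L2dim`: Lueck's extended dimension; the `L²`-Betti
  numbers are `b2 H k = dim H_k(H; ℓ²H)`, and `b2co H k = dim H^k(H; ℓ²H)`;
* `Cx V`, `ProperAction K H` (connected, locally finite, simplicial action with finite vertex
  stabilisers), `H1Zero K` (`H¹(K; ℂ) = 0`), `H1cZero K` (`H¹_c(K; ℂ) = 0`);
* `H0c K H`, `H1c K H`: the compactly supported cohomology of `K / H` with coefficients in `ℓ²(H)`;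
  `H0cTriv`, `H1cTriv`: it vanishes; `Embeds`: `H¹_c(K / H; ℓ²H)` embeds in `H¹(H; ℓ²H)`;
* `DualL2 K H n`: Poincare duality with coefficients in `ℓ²(H)` in cohomological degrees `≤ 1`;
* `Covers K H`: `K / H` covers some `K / G` with `H¹(G; ℓ²G) = 0`;
* `EndRest K H`, `EndSN K H`: conditions on the ends of `K / H`.
-/

set_option autoImplicit false

namespace Pool.Agent.Results.MP_4f4d9f_gt.TopTwoDegrees

open Pool.Agent.Y343.LC

/-- **Theorem.** Let the infinite group `H` act simplicially, with finite vertex stabilisers, on the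
connected locally finite complex `K` with `H¹(K; ℂ) = H¹_c(K; ℂ) = 0`.

* `H⁰_c(K / H; ℓ²H) = 0`, and `H¹_c(K / H; ℓ²H)` embeds equivariantly in `H¹(H; ℓ²H)`.
* `H¹_c(K / H; ℓ²H) = 0` if `K / H` covers some `K / G` with `H¹(G; ℓ²G) = 0`, or if outside of
  every compact subset of `K / H` there is a connected set `E` with image `L` of `π₁(E)` in `H` such
  that the restriction `H¹(H; ℓ²H) → H¹(L; ℓ²H)` is injective, or such that `L ∩ g L g⁻¹` is
  infinite for all `g` in `H`.
* If `K / H` satisfies Poincare duality in dimension `n`, then `b_j^{(2)}(H) = 0` for `j ≥ n`,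
  `b_{n-1}^{(2)}(H) ≤ dim H¹(H; ℓ²H)`, and `b_{n-1}^{(2)}(H) = 0` if `dim H¹(H; ℓ²H) = 0` or if one
  of the conditions above is satisfied.  In the latter cases and for `n ≤ 4` all `L²`-Betti
  numbers above the middle dimension vanish. -/
theorem result (V : Type) (K : Cx V) (H : Type) [Group H] [MulAction H V] [Infinite H]
    (hA : ProperAction K H) (h1 : H1Zero K) (h1c : H1cZero K) :
    H0cTriv K H ∧ Embeds K H ∧ ((Covers K H ∨ EndRest K H ∨ EndSN K H) → H1cTriv K H) ∧
    ∀ n : ℕ, DualL2 K H n →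
      (∀ j, n ≤ j → b2 H j = 0) ∧
      b2 H (n - 1) ≤ b2co H 1 ∧
      ((b2co H 1 = 0 ∨ Covers K H ∨ EndRest K H ∨ EndSN K H) →
        (∀ j, n - 1 ≤ j → b2 H j = 0) ∧ (n ≤ 4 → ∀ j, n < 2 * j → b2 H j = 0)) := by
  obtain ⟨a, b, c, d⟩ := main K H hA h1 h1c
  refine ⟨a, b, c, fun n hD => ?_⟩
  obtain ⟨d1, d2, d3⟩ := d n hD
  exact ⟨d1, d2, fun h => ⟨d3 h, fun hn j hj => d3 h j (by omega)⟩⟩

end Pool.Agent.Results.MP_4f4d9f_gt.TopTwoDegrees
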